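import Pool.Agent.KS6_79.RainbowProof

namespace Pool.Agent.Results.MP_b97a60_co.RainbowThree

open Pool.Agent.KS6_79.Rainbow

/-- **Main theorem.** Let `A` be a finite abelian group of exponent `m ≥ 5` and let `T` be a graph
isomorphic to the caterpillar `C(h₁,h₂,h₃)` with `|T| = |A|`. Unless one of the three exceptional
conditions holds, `T` is `A`-rainbow. -/
theorem result {A : Type*} [AddCommGroup A] [Finite A] {V : Type*} (T : SimpleGraph V)
    (h₁ h₂ h₃ : ℕ) (hT : Nonempty (T ≃g caterpillar ![h₁, h₂, h₃]))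
    (hcard : Nat.card V = Nat.card A) (hexp : 5 ≤ AddMonoid.exponent A)
    (hex : ¬ Exceptional (AddMonoid.exponent A) h₁ h₂ h₃) : IsRainbow A T := by
  have : Fintype A := Fintype.ofFinite A
  obtain ⟨e⟩ := hT
  apply isRainbow_of_iso e
  have hc : Fintype.card A = h₁ + h₂ + h₃ + 3 := by
    rw [← Nat.card_eq_fintype_card, ← hcard, Nat.card_congr e.toEquiv]
    simp [Fin.sum_univ_three]
    omega
  exact rainbow_of_data (data_main rfl hexp hc hex) (by omega)

end Pool.Agent.Results.MP_b97a60_co.RainbowThree
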